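import Pool.Agent.Lib.H38H.W0
import Pool.Agent.Lib.H38H.Q0

/-!
Chunk SLG1 (M). Tools for the moves: adjacency and neighbour sets in `mv`, components, number of components, rays; `g1_mono`.

Proofs. `mv_adj` is `Iff.rfl`; the neighbour sets by cases. `reach_same`, `cov_cut`: induction on reachability (`SimpleGraph.reachable_iff_reflTransGen`); in `cov_cut` add `a` and `b` to the set of representatives.
`ray_comp`: by induction `R.Reachable x y` for all `y = ray x j`, `j ≤ k`; the `k + 1` positions are distinct.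
`g1_mono`: `ap_congr`.
-/

set_option autoImplicit false

namespace Pool.Agent.H38H

open Classical

theorem mv_adj {α : Type} {S : SimpleGraph α} {x w x' u v : α} :
    (mv S x w x').Adj u v ↔ (S.Adj u v ∧ s(u, v) ≠ s(w, x')) ∨ (u ≠ v ∧ s(u, v) = s(x, w)) := Iff.rfl

/-- a move changes the adjacency only at `x`, `w`, `x'` -/
theorem mv_same {α : Type} {S : SimpleGraph α} {x w x' u : α} (h1 : u ≠ x) (h2 : u ≠ w) (h3 : u ≠ x') (v : α) :
    (mv S x w x').Adj u v ↔ S.Adj u v := by
  rw [mv_adj]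
  simp only [ne_eq, Sym2.eq_iff]
  constructor
  · rintro (⟨h, -⟩ | ⟨-, h⟩)
    · exact h
    · rcases h with ⟨h, -⟩ | ⟨h, -⟩
      · exact (h1 h).elim
      · exact (h2 h).elim
  · intro h
    refine Or.inl ⟨h, ?_⟩
    rintro (⟨h4, -⟩ | ⟨h4, -⟩)
    · exact h2 h4
    · exact h3 h4

theorem mv_nb_x {α : Type} {S : SimpleGraph α} {x w x' : α} (h1 : x ≠ w) (h2 : x ≠ x') :
    (mv S x w x').neighborSet x = insert w (S.neighborSet x) := by
  ext v
  rw [SimpleGraph.mem_neighborSet, mv_adj, Set.mem_insert_iff, SimpleGraph.mem_neighborSet]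
  simp only [ne_eq, Sym2.eq_iff]
  constructor
  · rintro (⟨h, -⟩ | ⟨-, h⟩)
    · exact Or.inr h
    · rcases h with ⟨-, h⟩ | ⟨h, -⟩
      · exact Or.inl h
      · exact (h1 h).elim
  · rintro (h | h)
    · subst h
      exact Or.inr ⟨h1, Or.inl ⟨trivial, rfl⟩⟩
    · refine Or.inl ⟨h, ?_⟩
      rintro (⟨h4, -⟩ | ⟨h4, -⟩)
      · exact h1 h4
      · exact h2 h4

theorem mv_nb_w {α : Type} {S : SimpleGraph α} {x w x' : α} (h1 : x ≠ w) :
    (mv S x w x').neighborSet w = insert x (S.neighborSet w \ {x'}) := by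
  ext v
  rw [SimpleGraph.mem_neighborSet, mv_adj, Set.mem_insert_iff, Set.mem_sdiff, SimpleGraph.mem_neighborSet,
    Set.mem_singleton_iff]
  simp only [ne_eq, Sym2.eq_iff]
  constructor
  · rintro (⟨h, h4⟩ | ⟨-, h⟩)
    · exact Or.inr ⟨h, fun h5 => h4 (Or.inl ⟨trivial, h5⟩)⟩
    · rcases h with ⟨h, -⟩ | ⟨-, h⟩
      · exact (h1 h.symm).elim
      · exact Or.inl h
  · rintro (h | ⟨h, h4⟩)
    · subst h
      exact Or.inr ⟨fun h => h1 h.symm, Or.inr ⟨trivial, rfl⟩⟩
    · refine Or.inl ⟨h, ?_⟩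
      rintro (⟨-, h5⟩ | ⟨h5, h6⟩)
      · exact h4 h5
      · exact h.ne h6.symm

theorem mv_nb_x' {α : Type} {S : SimpleGraph α} {x w x' : α} (h1 : x ≠ x') (h2 : w ≠ x') :
    (mv S x w x').neighborSet x' = S.neighborSet x' \ {w} := by
  ext v
  rw [SimpleGraph.mem_neighborSet, mv_adj, Set.mem_sdiff, SimpleGraph.mem_neighborSet,
    Set.mem_singleton_iff]
  simp only [ne_eq, Sym2.eq_iff]
  constructor
  · rintro (⟨h, h4⟩ | ⟨-, h⟩)
    · exact ⟨h, fun h5 => h4 (Or.inr ⟨trivial, h5⟩)⟩
    · rcases h with ⟨h, -⟩ | ⟨h, -⟩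
      · exact (h1 h.symm).elim
      · exact (h2 h.symm).elim
  · rintro ⟨h, h4⟩
    refine Or.inl ⟨h, ?_⟩
    rintro (⟨h5, -⟩ | ⟨-, h5⟩)
    · exact h2 h5.symm
    · exact h4 h5

theorem cut_same {α : Type} {S : SimpleGraph α} {a b u : α} (h1 : u ≠ a) (h2 : u ≠ b) (v : α) :
    (cutE S a b).Adj u v ↔ S.Adj u v := by
  constructor
  · exact fun h => h.1
  · intro h
    refine ⟨h, ?_⟩
    simp only [ne_eq, Sym2.eq_iff]
    rintro (⟨h3, -⟩ | ⟨h3, -⟩)
    · exact h1 h3
    · exact h2 h3

theorem join_same {α : Type} {S : SimpleGraph α} {a b u : α} (h1 : u ≠ a) (h2 : u ≠ b) (v : α) :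
    (joinE S a b).Adj u v ↔ S.Adj u v := by
  constructor
  · rintro (h | ⟨-, h⟩)
    · exact h
    · simp only [Sym2.eq_iff] at h
      rcases h with ⟨h3, -⟩ | ⟨h3, -⟩
      · exact (h1 h3).elim
      · exact (h2 h3).elim
  · exact fun h => Or.inl h

/-- if the two graphs agree on the component of `v` in `R`, it is also the component in `S` -/
theorem reach_same {α : Type} {S R : SimpleGraph α} {v : α}
    (h : ∀ y, R.Reachable v y → ∀ z, R.Adj y z ↔ S.Adj y z) (y : α) : R.Reachable v y ↔ S.Reachable v y := by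
  constructor
  · intro hr
    rw [SimpleGraph.reachable_iff_reflTransGen] at hr
    induction hr with
    | refl => exact SimpleGraph.Reachable.refl _
    | @tail b c hb hbc ih =>
      exact ih.trans ((h b (by rw [SimpleGraph.reachable_iff_reflTransGen]; exact hb) c).1 hbc).reachable
  · intro hr
    rw [SimpleGraph.reachable_iff_reflTransGen] at hr
    induction hr with
    | refl => exact SimpleGraph.Reachable.refl _
    | @tail b c hb hbc ih => exact ih.trans ((h b ih c).2 hbc).reachable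

theorem card_reach_congr {α : Type} {S R : SimpleGraph α} {v : α} (h : ∀ y, R.Reachable v y ↔ S.Reachable v y) :
    Nat.card {y // R.Reachable v y} = Nat.card {y // S.Reachable v y} :=
  Nat.card_congr (Equiv.subtypeEquivRight h)

theorem card_reach_mono {α : Type} [Finite α] {S R : SimpleGraph α} {v u : α} (h : S ≤ R) (hr : R.Reachable v u) :
    Nat.card {y // S.Reachable u y} ≤ Nat.card {y // R.Reachable v y} :=
  Nat.card_le_card_of_injective
    (fun y : {y // S.Reachable u y} => (⟨y.1, hr.trans (y.2.mono h)⟩ : {y // R.Reachable v y}))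
    (fun a b hab => by
      have h1 := congrArg Subtype.val hab
      exact Subtype.ext h1)

variable {ι : Type} [Fintype ι] {L : ℕ}

theorem cov_cut {S : SimpleGraph (ι × Bool)} {a b : ι × Bool} {c : ℕ} (h : Cov S c) : Cov (cutE S a b) (c + 2) := by
  obtain ⟨T, hT, hc⟩ := h
  refine ⟨insert a (insert b T), ?_, ?_⟩
  · have h1 := Finset.card_insert_le a (insert b T)
    have h2 := Finset.card_insert_le b T
    omega
  · intro x
    obtain ⟨t, ht, hr⟩ := hc x
    rw [SimpleGraph.reachable_iff_reflTransGen] at hr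
    induction hr with
    | refl => exact ⟨t, by simp [ht], SimpleGraph.Reachable.refl _⟩
    | @tail u v _ huv ih =>
      by_cases he : s(u, v) = s(a, b)
      · rw [Sym2.eq_iff] at he
        rcases he with ⟨-, he⟩ | ⟨-, he⟩
        · exact ⟨v, by simp [he], SimpleGraph.Reachable.refl _⟩
        · exact ⟨v, by simp [he], SimpleGraph.Reachable.refl _⟩
      · obtain ⟨t', ht', hr'⟩ := ih
        have h3 : (cutE S a b).Adj u v := ⟨huv, he⟩
        exact ⟨t', ht', hr'.trans h3.reachable⟩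

theorem slg1_le_join {α : Type} (S : SimpleGraph α) (a b : α) : S ≤ joinE S a b := by
  intro u v h
  exact Or.inl h

theorem cov_join {S : SimpleGraph (ι × Bool)} {a b : ι × Bool} {c : ℕ} (h : Cov S c) : Cov (joinE S a b) c := by
  obtain ⟨T, hT, hc⟩ := h
  refine ⟨T, hT, fun x => ?_⟩
  obtain ⟨t, ht, hr⟩ := hc x
  exact ⟨t, ht, hr.mono (slg1_le_join S a b)⟩

theorem cov_mv {S : SimpleGraph (ι × Bool)} {x w x' : ι × Bool} {c : ℕ} (h : Cov S c) : Cov (mv S x w x') (c + 2) :=
  cov_join (cov_cut h)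

/-- a component containing a ray with distinct slots -/
theorem ray_comp (I : Inst ι L) (R : SimpleGraph (ι × Bool)) {x : ι × Bool} {k : ℕ}
    (hd : ∀ j ≤ k, ∃ y, I.ray x j = some y ∧ ∀ i < j, ∀ z, I.ray x i = some z → z.1 ≠ y.1)
    (hR : ∀ j < k, ∀ y z, I.ray x j = some y → I.ray x (j + 1) = some z → R.Adj y (flip y) ∧ R.Adj (flip y) z) :
    k + 1 ≤ Nat.card {v // R.Reachable x v} := by
  have h1 : ∀ j ≤ k, ∀ y, I.ray x j = some y → R.Reachable x y := by
    intro j
    induction j with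
    | zero =>
      intro _ y hy
      simp only [Inst.ray, Option.some.injEq] at hy
      rw [hy]
    | succ j ih =>
      intro hj z hz
      obtain ⟨y, hy, -⟩ := hd j (by omega)
      obtain ⟨h2, h3⟩ := hR j (by omega) y z hy hz
      exact ((ih (by omega) y hy).trans h2.reachable).trans h3.reachable
  haveI : Nonempty (ι × Bool) := ⟨x⟩
  choose! f hf hf' using hd
  have h2 : Nat.card (Fin (k + 1)) ≤ Nat.card {v // R.Reachable x v} := by
    refine Nat.card_le_card_of_injective
      (fun j : Fin (k + 1) => (⟨f j.1, h1 j.1 (by omega) _ (hf j.1 (by omega))⟩ : {v // R.Reachable x v})) ?_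
    intro i j hij
    have h3 : f i.1 = f j.1 := congrArg Subtype.val hij
    by_contra hne
    rcases Nat.lt_or_ge i.1 j.1 with h4 | h4
    · exact hf' j.1 (by omega) i.1 h4 (f i.1) (hf i.1 (by omega)) (by rw [h3])
    · have h5 : j.1 < i.1 := lt_of_le_of_ne h4 (fun h => hne (Fin.ext h.symm))
      exact hf' i.1 (by omega) j.1 h5 (f j.1) (hf j.1 (by omega)) (by rw [h3])
  rwa [Nat.card_eq_fintype_card, Fintype.card_fin] at h2

/-- neighbours at an untouched slot -/
theorem G1.nb {I : Inst ι L} {h : SB ι} {K : Finset ι} {S : SimpleGraph (ι × Bool)}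
    {En : Finset (ι × Bool)} {Ct : Finset ι} {ℓ : ℕ} (g : G1 I h K S En Ct ℓ) {w u : ι × Bool}
    (hw : w.1 ∉ Ct) (ho : I.outer w = some u) : S.neighborSet w = {flip w, u} := by
  ext v
  rw [SimpleGraph.mem_neighborSet, g.unt w v hw, Set.mem_insert_iff, Set.mem_singleton_iff, Inst.FAdj, ho,
    Option.some.injEq]
  constructor
  · rintro (h1 | h1)
    · exact Or.inl h1
    · exact Or.inr h1.symm
  · rintro (h1 | h1)
    · exact Or.inl h1
    · exact Or.inr h1.symm

/-- a position at an untouched slot whose outer edge exists and does not lead to `flip` is not an end -/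
theorem G1.notEnd {I : Inst ι L} {h : SB ι} {K : Finset ι} {S : SimpleGraph (ι × Bool)}
    {En : Finset (ι × Bool)} {Ct : Finset ι} {ℓ : ℕ} (g : G1 I h K S En Ct ℓ) {w u : ι × Bool}
    (hw : w.1 ∉ Ct) (ho : I.outer w = some u) (hu : u ≠ flip w) : w ∉ En := by
  intro hE
  have h1 := g.deg w
  rw [if_pos hE, g.nb hw ho, Set.ncard_pair (fun h => hu h.symm)] at h1
  exact absurd h1 (by decide)

theorem g1_mono {I : Inst ι L} {h h' : SB ι} {K K' : Finset ι} {S : SimpleGraph (ι × Bool)}
    {En : Finset (ι × Bool)} {Ct : Finset ι} {ℓ : ℕ} (g : G1 I h K S En Ct ℓ) (hK : K ⊆ K')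
    (hh : h' ∈ cyl K h) : G1 I h' K' S En Ct ℓ where
  deg := g.deg
  edge := by
    intro x y hxy
    rcases g.edge x y hxy with h1 | ⟨h1, h2, h3⟩
    · exact Or.inl h1
    · refine Or.inr ⟨hK h1, hK h2, ?_⟩
      unfold Inst.PAdj at h3 ⊢
      rw [ap_congr hh h1, ap_congr hh h2]
      exact h3
  mid := by
    intro x hx
    apply g.mid
    by_cases h1 : x.1 ∈ K
    · rcases hx with hx | hx
      · exact (hx (hK h1)).elim
      · rw [ap_congr hh h1] at hx
        exact Or.inr hx
    · exact Or.inl h1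
  unt := g.unt
  big := g.big

end Pool.Agent.H38H
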