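import Pool.Agent.Lib.H38H.G.G1
import Pool.Agent.Lib.H38H.O2

/-!
Chunk SLG2 (M/L). One move.

Proof. `step_adj`: the partner relation between `ap h x` and `ap h w`, and (`x' = flip w` and the kind of `w` is `c`) or `outer w = some x'`. Let `outer w = some u` (`ho`), `u ≠ flip w`, so `S.neighborSet w = {flip w, u}`
(`G1.nb`), `x' ∈ {flip w, u}`, `S.Adj w x'`. `x' ∉ En` (`G1.notEnd`: if `x' = flip w`: `outer (flip w)` exists and is not `w` as otherwise `outer w = some (flip w)`; if `outer w = some x'`: `outer x' = some w`, `w ≠ flip x'`).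
So `x ≠ x'`; `x ≠ w` and `¬ S.Adj x w` (`unt` at `w`, `hno`, `hwx`).
deg: `mv_nb_x`, `mv_nb_w`, `mv_nb_x'`, `mv_same`. edge: `mv_adj`. mid: if `s(v, flip v) = s(w, x')` then `x' = flip w` and `v.1 = w.1`, the kind at `w` is `c` and `w.1 ∈ K`. unt: `mv_same`.
big: let the component `C` of `v` in `mv` contain no new end. If `w ∉ C` then `x ∉ C` (as `x`, `w` are adjacent in `mv`), `x' ∉ C` (a new end), so `C` is also the component in `S` (`reach_same`, `mv_same`) and contains no
element of `En`; use `g.big`; in the second case of it (`C` untouched) `C` is closed under `flip` (`unt`), so contains no position of the slots of `x`, `w`, `x'`. If `w ∈ C`: `NoCyc` fails, so `Iso`. If `outer w = some x'`: `ray_comp` for the ray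
of `w` with `k = 4 ℓ`, `iso_ray` (all slots of the ray are untouched, so `S` and `mv` have these edges: the deleted edge is the outer edge at `w`, and the ray does not return to the slot of `w`). If `x' = flip w` use the ray of `flip w` with its first position
deleted: `ray_comp` for the ray of `u`, `k = 4 ℓ - 1` (`ray_succ'`), `u` is adjacent to `w` in `mv`.
-/

set_option autoImplicit false

namespace Pool.Agent.H38H

open Classical

variable {ι : Type} [Fintype ι] {L : ℕ}

theorem slg2_not_mem {x w x' : ι} {C : Finset ι} {p : ι} :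
    p ∉ insert x (insert w (insert x' C)) ↔ p ≠ x ∧ p ≠ w ∧ p ≠ x' ∧ p ∉ C := by
  simp only [Finset.mem_insert, not_or]

/-- the component of the target of an isolated move is large, outer case -/
theorem slg2_big_out {I : Inst ι L} {h : SB ι} {K : Finset ι} {S : SimpleGraph (ι × Bool)}
    {En : Finset (ι × Bool)} {Ct : Finset ι} {ℓ : ℕ} (g : G1 I h K S En Ct ℓ) {x w x' : ι × Bool}
    (ho : I.outer w = some x') (hlo : I.outer w ≠ some (flip w)) (hc : Iso I ℓ Ct w.1) :
    4 * ℓ + 1 ≤ Nat.card {y // (mv S x w x').Reachable w y} := by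
  apply ray_comp I
  · intro j hj
    obtain ⟨y, h1, -, -, h2⟩ := iso_ray I hc hj
    exact ⟨y, h1, h2⟩
  · intro j hj y z hy hz
    obtain ⟨y', hy1, hyC, -, hyd⟩ := iso_ray I hc (j := j) (by omega)
    obtain ⟨z', hz1, hzC, -, hzd⟩ := iso_ray I hc (j := j + 1) (by omega)
    rw [hy] at hy1
    rw [hz] at hz1
    obtain rfl := Option.some.inj hy1
    obtain rfl := Option.some.inj hz1
    have hzw : z.1 ≠ w.1 := fun e => hzd 0 (by omega) w rfl e.symm
    constructor
    · refine mv_adj.2 (Or.inl ⟨(g.unt y (flip y) hyC).2 (Or.inl rfl), ?_⟩)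
      intro e
      rw [Sym2.eq_iff] at e
      rcases e with ⟨e1, e2⟩ | ⟨e1, e2⟩
      · rw [e1] at e2
        rw [← e2] at ho
        exact hlo ho
      · have e3 : y = flip w := by rw [← flip_flip y, e2]
        rw [← e1, e3] at ho
        exact hlo ho
    · have h3 : I.outer (flip y) = some z := by
        rw [Inst.ray, hy, Option.bind_some] at hz
        exact hz
      refine mv_adj.2 (Or.inl ⟨(g.unt (flip y) z hyC).2 (Or.inr h3), ?_⟩)
      intro e
      rw [Sym2.eq_iff] at e
      rcases e with ⟨e1, e2⟩ | ⟨e1, e2⟩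
      · have e3 : y.1 = w.1 := by rw [← flip_fst y, e1]
        rcases Nat.eq_zero_or_pos j with h0 | h0
        · subst h0
          simp only [Inst.ray, Option.some.injEq] at hy
          rw [← hy] at e1
          exact flip_ne w e1
        · exact hyd 0 h0 w rfl e3.symm
      · exact hzw (by rw [e2])

/-- the component of the target of an isolated move is large, mid case -/
theorem slg2_big_mid {I : Inst ι L} {h : SB ι} {K : Finset ι} {S : SimpleGraph (ι × Bool)}
    {En : Finset (ι × Bool)} {Ct : Finset ι} {ℓ : ℕ} (g : G1 I h K S En Ct ℓ) {x w : ι × Bool}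
    (hℓ : 1 ≤ ℓ) (hc : Iso I ℓ Ct w.1) :
    4 * ℓ ≤ Nat.card {y // (mv S x w (flip w)).Reachable w y} := by
  obtain ⟨u, hu1, huC, -, hud⟩ := iso_ray I (x := flip w) (ℓ := ℓ) (Ct := Ct) hc (j := 1) (by omega)
  have hou : I.outer w = some u := by
    simp only [Inst.ray, Option.bind_some, flip_flip] at hu1
    exact hu1
  have huw : u.1 ≠ w.1 := fun e => hud 0 (by omega) (flip w) rfl e.symm
  have hw : w.1 ∉ Ct := (hc.2 w.1 (ball_self I _ _)).1
  have hray : ∀ j, I.ray u j = I.ray (flip w) (j + 1) := by
    intro j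
    rw [ray_succ', flip_flip, hou, Option.bind_some]
  have hadj : (mv S x w (flip w)).Adj w u := by
    refine mv_adj.2 (Or.inl ⟨(g.unt w u hw).2 (Or.inr hou), ?_⟩)
    intro e
    rw [Sym2.eq_iff] at e
    rcases e with ⟨-, e2⟩ | ⟨e1, -⟩
    · exact huw (by rw [e2, flip_fst])
    · exact flip_ne w e1.symm
  have h1 : (4 * ℓ - 1) + 1 ≤ Nat.card {y // (mv S x w (flip w)).Reachable u y} := by
    apply ray_comp I
    · intro j hj
      obtain ⟨y, h1, -, -, h2⟩ := iso_ray I (x := flip w) (ℓ := ℓ) (Ct := Ct) hc (j := j + 1) (by omega)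
      refine ⟨y, by rw [hray]; exact h1, fun i hi z hz => h2 (i + 1) (by omega) z (by rw [← hray]; exact hz)⟩
    · intro j hj y z hy hz
      obtain ⟨y', hy1, hyC, -, hyd⟩ := iso_ray I (x := flip w) (ℓ := ℓ) (Ct := Ct) hc (j := j + 1) (by omega)
      obtain ⟨z', hz1, hzC, -, hzd⟩ := iso_ray I (x := flip w) (ℓ := ℓ) (Ct := Ct) hc (j := j + 2) (by omega)
      rw [← hray] at hy1
      rw [← hray (j + 1)] at hz1
      rw [hy] at hy1
      rw [hz] at hz1
      obtain rfl := Option.some.inj hy1
      obtain rfl := Option.some.inj hz1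
      have hyw : y.1 ≠ w.1 := fun e => hyd 0 (by omega) (flip w) rfl e.symm
      have hzw : z.1 ≠ w.1 := fun e => hzd 0 (by omega) (flip w) rfl e.symm
      have key : ∀ a b : ι × Bool, a.1 ≠ w.1 → s(a, b) ≠ s(w, flip w) := by
        intro a b ha e
        rw [Sym2.eq_iff] at e
        rcases e with ⟨e1, -⟩ | ⟨e1, -⟩
        · exact ha (by rw [e1])
        · exact ha (by rw [e1, flip_fst])
      constructor
      · exact mv_adj.2 (Or.inl ⟨(g.unt y (flip y) hyC).2 (Or.inl rfl), key _ _ hyw⟩)
      · have h3 : I.outer (flip y) = some z := by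
          rw [Inst.ray, hy, Option.bind_some] at hz
          exact hz
        exact mv_adj.2 (Or.inl ⟨(g.unt (flip y) z hyC).2 (Or.inr h3), key _ _ hyw⟩)
  have h2 := card_reach_mono (le_refl (mv S x w (flip w))) hadj.reachable
  omega

theorem g1_move {I : Inst ι L} {h : SB ι} {K : Finset ι} {S : SimpleGraph (ι × Bool)}
    {En : Finset (ι × Bool)} {Ct : Finset ι} {ℓ : ℕ} (g : G1 I h K S En Ct ℓ) {x w x' : ι × Bool} {b : Bool}
    (hx : x ∈ En) (hs : I.step h x b = some (w, x')) (hxK : x.1 ∈ K) (hwK : w.1 ∈ K)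
    (hw : w.1 ∉ Ct) (hx' : x'.1 ∉ Ct) (hwx : w.1 ≠ x.1) (ho : ∀ i, I.outer (w.1, i) ≠ none)
    (hno : I.outer w ≠ some x) (hlo : I.outer w ≠ some (flip w))
    (hc : Iso I ℓ Ct w.1 ∨ NoCyc S En x w x') :
    G1 I h K (mv S x w x') (insert x' (En.erase x)) (insert x.1 (insert w.1 (insert x'.1 Ct))) ℓ ∧
      x' ∉ En ∧ ∀ c, Cov S c → Cov (mv S x w x') (c + 2) := by
  obtain ⟨hpart, hend⟩ := step_adj I h hs
  simp only at hpart hend
  obtain ⟨u, hu⟩ := Option.ne_none_iff_exists'.1 (ho w.2)
  have hu : I.outer w = some u := hu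
  have huf : u ≠ flip w := fun e => hlo (by rw [hu, e])
  have hNw := g.nb hw hu
  have hxw : x ≠ w := fun e => hwx (by rw [e])
  have hwx' : w ≠ x' := by
    rintro rfl
    rcases hend with ⟨h1, -⟩ | h1
    · exact flip_ne w h1.symm
    · exact I.outer_ne _ h1
  have hx'N : x' ∈ S.neighborSet w := by
    rw [hNw]
    rcases hend with ⟨h1, -⟩ | h1
    · exact Or.inl h1
    · rw [hu] at h1
      exact Or.inr (Option.some.inj h1).symm
  have hxN : ¬ S.Adj x w := by
    intro h1
    have h2 := h1.symm
    rw [g.unt w x hw] at h2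
    rcases h2 with h2 | h2
    · exact hwx (by rw [h2, flip_fst])
    · exact hno h2
  have hx'E : x' ∉ En := by
    rcases hend with ⟨h1, -⟩ | h1
    · obtain ⟨v, hv⟩ := Option.ne_none_iff_exists'.1 (ho (!w.2))
      have hv : I.outer (flip w) = some v := hv
      rw [h1]
      refine g.notEnd (u := v) hw hv ?_
      rintro rfl
      rw [flip_flip] at hv
      exact hlo (I.outer_symm _ _ hv)
    · refine g.notEnd (u := w) hx' (I.outer_symm _ _ h1) ?_
      intro e
      rw [e] at h1
      have h2 := hlo
      rw [show flip w = x' by rw [e, flip_flip]] at h2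
      rw [← e] at h1
      exact h2 h1
  have hxx' : x ≠ x' := fun e => hx'E (e ▸ hx)
  have hKP : I.PAdj h x w := by
    rcases hpart with h1 | h1
    · exact Or.inr (Or.inr (Or.inl h1))
    · exact Or.inr (Or.inr (Or.inr h1))
  have hKP' : I.PAdj h w x := by
    rcases hpart with h1 | h1
    · exact Or.inr (Or.inr (Or.inl (I.Mc_symm _ _ h1)))
    · exact Or.inr (Or.inr (Or.inr (I.Md_symm _ _ h1)))
  refine ⟨⟨?_, ?_, ?_, ?_, ?_⟩, hx'E, fun c hc => cov_mv hc⟩
  · -- degrees
    intro v
    by_cases h1 : v = x'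
    · subst h1
      rw [if_pos (Finset.mem_insert_self _ _), mv_nb_x' hxx' hwx', Set.ncard_sdiff_singleton_of_mem]
      · rw [g.deg v, if_neg hx'E]
      · exact ((S.mem_neighborSet w v).1 hx'N).symm
    by_cases h2 : v = x
    · subst h2
      have hxN' : w ∉ S.neighborSet v := hxN
      rw [if_neg, mv_nb_x hxw hxx', Set.ncard_insert_of_notMem hxN', g.deg v, if_pos hx]
      rw [Finset.mem_insert, Finset.mem_erase]
      rintro (h3 | ⟨h3, -⟩)
      · exact h1 h3
      · exact h3 rfl
    by_cases h3 : v = w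
    · subst h3
      have h4 : v ∉ En := g.notEnd hw hu huf
      rw [if_neg, mv_nb_w hxw, Set.ncard_insert_of_notMem, Set.ncard_sdiff_singleton_of_mem hx'N, g.deg v, if_neg h4]
      · intro h5
        exact hxN ((S.mem_neighborSet v x).1 h5.1).symm
      · rw [Finset.mem_insert, Finset.mem_erase]
        rintro (h5 | ⟨-, h5⟩)
        · exact h1 h5
        · exact h4 h5
    · have h4 : (mv S x w x').neighborSet v = S.neighborSet v := by
        ext z
        exact mv_same h2 h3 h1 z
      rw [h4, g.deg v]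
      have h5 : v ∈ insert x' (En.erase x) ↔ v ∈ En := by
        rw [Finset.mem_insert, Finset.mem_erase]
        tauto
      simp only [h5]
  · -- edges
    intro a c hac
    rcases mv_adj.1 hac with ⟨h1, -⟩ | ⟨-, h1⟩
    · exact g.edge a c h1
    · rw [Sym2.eq_iff] at h1
      rcases h1 with ⟨rfl, rfl⟩ | ⟨rfl, rfl⟩
      · exact Or.inr ⟨hxK, hwK, hKP⟩
      · exact Or.inr ⟨hwK, hxK, hKP'⟩
  · -- mid edges
    intro v hv
    refine mv_adj.2 (Or.inl ⟨g.mid v hv, fun e => ?_⟩)
    rw [Sym2.eq_iff] at e
    have e1 : v.1 = w.1 := by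
      rcases e with ⟨e1, -⟩ | ⟨-, e1⟩
      · rw [e1]
      · rw [← e1, flip_fst]
    have e2 : x' = flip w := by
      rcases e with ⟨e1, e2⟩ | ⟨e1, e2⟩
      · rw [← e2, e1]
      · rw [← e1, ← flip_flip v, e2]
    rcases hv with h1 | h1
    · exact h1 (by rw [e1]; exact hwK)
    · apply h1
      rcases hend with ⟨-, h3⟩ | h3
      · rw [ap_fst, e1, ← ap_fst]
        exact h3
      · rw [e2] at h3
        exact (hlo h3).elim
  · -- untouched slots
    intro v z hv
    rw [slg2_not_mem] at hv
    obtain ⟨h1, h2, h3, h4⟩ := hv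
    rw [mv_same (fun e => h1 (by rw [e])) (fun e => h2 (by rw [e])) (fun e => h3 (by rw [e]))]
    exact g.unt v z h4
  · -- large components
    intro v hv
    have hxwA : (mv S x w x').Adj x w := mv_adj.2 (Or.inr ⟨hxw, rfl⟩)
    by_cases hvw : (mv S x w x').Reachable v w
    · left
      have hiso : Iso I ℓ Ct w.1 := by
        rcases hc with hc | ⟨y, hy1, hy2⟩
        · exact hc
        · exfalso
          refine hv y (hvw.trans hy1) ?_
          rw [Finset.mem_insert, Finset.mem_erase]
          rcases hy2 with hy2 | ⟨hy2, hy3⟩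
          · exact Or.inl hy2
          · exact Or.inr ⟨hy3, hy2⟩
      rcases Nat.eq_zero_or_pos ℓ with h0 | h0
      · rw [h0]
        exact Nat.zero_le _
      refine le_trans ?_ (card_reach_mono (le_refl (mv S x w x')) hvw)
      rcases hend with ⟨h1, -⟩ | h1
      · have h2 := slg2_big_mid (x := x) g h0 hiso
        rw [← h1] at h2
        omega
      · have h2 := slg2_big_out (x := x) g h1 hlo hiso
        omega
    · have hvx : ¬ (mv S x w x').Reachable v x := fun h1 => hvw (h1.trans hxwA.reachable)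
      have hvx' : ¬ (mv S x w x').Reachable v x' := fun h1 => hv x' h1 (Finset.mem_insert_self _ _)
      have hsame := reach_same (S := S) (R := mv S x w x') (v := v) (fun y hy z => by
        refine mv_same ?_ ?_ ?_ z
        · rintro rfl
          exact hvx hy
        · rintro rfl
          exact hvw hy
        · rintro rfl
          exact hvx' hy)
      have hEn : ∀ y, S.Reachable v y → y ∉ En := by
        intro y hy hyE
        have h1 := (hsame y).2 hy
        refine hv y h1 ?_
        rw [Finset.mem_insert, Finset.mem_erase]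
        exact Or.inr ⟨fun e => hvx (e ▸ h1), hyE⟩
      rcases g.big v hEn with h1 | h1
      · left
        rw [card_reach_congr hsame]
        exact h1
      · right
        intro y hy
        have h2 : ∀ a : ι × Bool, ¬ (mv S x w x').Reachable v a → y.1 ≠ a.1 := by
          intro a ha e
          rcases eq_or_flip e with h3 | h3
          · exact ha (h3 ▸ hy)
          · have h4 : S.Adj y (flip y) := (g.unt y (flip y) (h1 y ((hsame y).1 hy))).2 (Or.inl rfl)
            rw [h3, flip_flip, ← h3] at h4
            exact ha ((hsame a).2 (((hsame y).1 hy).trans h4.reachable))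
        rw [slg2_not_mem]
        exact ⟨h2 x hvx, h2 w hvw, h2 x' hvx', h1 y ((hsame y).1 hy)⟩

end Pool.Agent.H38H
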