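import Pool.Agent.Lib.H38H.G.G1
import Pool.Agent.Lib.H38H.O3

/-!
Chunk SLG3 (M). One of the two choices closes no cycle.

Proof. Let `p = (w, x')` be the step with the bit `true`, `p' = (w', x'')` with `false`. By the definition of `Inst.step` the kind of `ap h x` is `c` or `d` (otherwise the step is `none`).
Kind c: `w = w' = pa h y`, `x' = flip w`, `outer w = some x''`; `G1.nb`: `S.neighborSet w = {flip w, x''}`, `flip w ≠ x''`; `x ≠ w`, `¬ S.Adj x w` (`unt` at `w`); `parity_one` with `u = flip w`, `u' = x''`.
Kind d: `w = pa h (l, true)`, `w' = pa h (l, false) = flip w` (`pa_flip`), `outer w = some x'`, `outer w' = some x''`; `parity_two`. (`x' ≠ x''` as `outer` is injective: `outer x' = some w`.)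
The result is a vertex `v ≠ x` reachable from the target with degree 1 in the new graph: then `v = x'` or `v ∈ En` (`mv_same`, `mv_nb_w`, `g.deg`: the other vertices have degree 2), so `NoCyc`.
-/

set_option autoImplicit false

namespace Pool.Agent.H38H

open Classical

variable {ι : Type} [Fintype ι] {L : ℕ}

/-- a vertex of degree 1 after a move -/
theorem mv_deg_one {I : Inst ι L} {h : SB ι} {K : Finset ι} {S : SimpleGraph (ι × Bool)}
    {En : Finset (ι × Bool)} {Ct : Finset ι} {ℓ : ℕ} (g : G1 I h K S En Ct ℓ) {x w x' u v : ι × Bool}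
    (hxw : x ≠ w) (hn : ¬ S.Adj x w) (hw : S.neighborSet w = {x', u}) (hxu : x' ≠ u)
    (hv : v ≠ x) (h1 : ((mv S x w x').neighborSet v).ncard = 1) : v = x' ∨ (v ∈ En ∧ v ≠ x) := by
  by_cases hvx' : v = x'
  · exact Or.inl hvx'
  refine Or.inr ⟨?_, hv⟩
  by_contra hvE
  by_cases hvw : v = w
  · subst hvw
    have hux : u ≠ x := by
      rintro rfl
      have h2 : u ∈ S.neighborSet v := by rw [hw]; exact Or.inr rfl
      exact hn (show S.Adj v u from h2).symm
    have h3 : (mv S x v x').neighborSet v = {x, u} := by
      rw [mv_nb_w hxw, hw]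
      ext y
      simp only [Set.mem_insert_iff, Set.mem_sdiff, Set.mem_singleton_iff]
      constructor
      · rintro (h4 | ⟨h4 | h4, h5⟩)
        · exact Or.inl h4
        · exact (h5 h4).elim
        · exact Or.inr h4
      · rintro (h4 | h4)
        · exact Or.inl h4
        · exact Or.inr ⟨Or.inr h4, fun h5 => hxu (h5.symm.trans h4)⟩
    rw [h3, Set.ncard_pair (fun e => hux e.symm)] at h1
    omega
  · have h3 : (mv S x w x').neighborSet v = S.neighborSet v := by
      ext y
      exact mv_same hv hvw hvx' y
    have h4 := g.deg v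
    rw [if_neg hvE] at h4
    rw [h3, h4] at h1
    omega

theorem g1_choice {I : Inst ι L} {h : SB ι} {K : Finset ι} {S : SimpleGraph (ι × Bool)}
    {En : Finset (ι × Bool)} {Ct : Finset ι} {ℓ : ℕ} (g : G1 I h K S En Ct ℓ) {x : ι × Bool}
    (hx : x ∈ En) (hs : ∀ b, ∃ p, I.step h x b = some p ∧ p.1.1 ∉ Ct ∧ p.1.1 ≠ x.1 ∧
      (∀ i, I.outer (p.1.1, i) ≠ none) ∧ I.outer p.1 ≠ some x ∧ I.outer p.1 ≠ some (flip p.1)) :
    ∃ b p, I.step h x b = some p ∧ NoCyc S En x p.1 p.2 := by
  have hdeg : ∀ v, (S.neighborSet v).ncard ≤ 2 := by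
    intro v
    rw [g.deg v]
    split_ifs <;> omega
  have hdx : (S.neighborSet x).ncard = 1 := by
    rw [g.deg x, if_pos hx]
  have hna : ∀ w : ι × Bool, w.1 ∉ Ct → w.1 ≠ x.1 → I.outer w ≠ some x → ¬ S.Adj x w := by
    intro w h1 h2 h3 h4
    rcases (g.unt w x h1).1 h4.symm with h5 | h5
    · apply h2
      rw [h5]
      rfl
    · exact h3 h5
  obtain ⟨p, hp1, hp2, hp3, hp4, hp5, hp6⟩ := hs true
  obtain ⟨p', hq1, hq2, hq3, hq4, hq5, hq6⟩ := hs false
  have hp1' := hp1
  have hq1' := hq1
  unfold Inst.step at hp1 hq1
  cases hk : I.kind (ap h x).1 with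
  | b =>
    rw [hk] at hp1
    simp at hp1
  | c =>
    rw [hk] at hp1 hq1
    simp only at hp1 hq1
    cases hM : I.Mc (ap h x) with
    | none =>
      rw [hM] at hp1
      simp at hp1
    | some y =>
      rw [hM] at hp1 hq1
      simp only [Option.bind_some, if_true, Option.some.injEq, Bool.false_eq_true, if_false] at hp1 hq1
      cases hO : I.outer (pa h y) with
      | none =>
        rw [hO] at hq1
        simp at hq1
      | some x'' =>
        rw [hO] at hq1
        simp only [Option.map_some, Option.some.injEq] at hq1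
        subst hp1
        subst hq1
        simp only at hp2 hp3 hp4 hp5 hp6 hq2 hq3 hq4 hq5 hq6
        have hne : flip (pa h y) ≠ x'' := by
          intro e
          rw [hO] at hp6
          exact hp6 (by rw [e])
        have hxw : x ≠ pa h y := fun e => hp3 (by rw [← e])
        have hn := hna _ hp2 hp3 hp5
        have hnb := g.nb hp2 hO
        rcases parity_one S hdeg hdx hxw hn hnb hne with ⟨v, hv1, hv2, hv3⟩ | ⟨v, hv1, hv2, hv3⟩
        · exact ⟨true, _, hp1', v, hv2, mv_deg_one g hxw hn hnb hne hv1 hv3⟩
        · exact ⟨false, _, hq1', v, hv2,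
            mv_deg_one g hxw hn (by rw [hnb, Set.pair_comm]) hne.symm hv1 hv3⟩
  | d =>
    rw [hk] at hp1 hq1
    simp only at hp1 hq1
    cases hM : I.Md (ap h x).1 with
    | none =>
      rw [hM] at hp1
      simp at hp1
    | some l =>
      rw [hM] at hp1 hq1
      simp only [Option.bind_some] at hp1 hq1
      cases hO : I.outer (pa h (l, true)) with
      | none =>
        rw [hO] at hp1
        simp at hp1
      | some x' =>
        cases hO' : I.outer (pa h (l, false)) with
        | none =>
          rw [hO'] at hq1
          simp at hq1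
        | some x'' =>
          rw [hO] at hp1
          rw [hO'] at hq1
          simp only [Option.map_some, Option.some.injEq] at hp1 hq1
          subst hp1
          subst hq1
          simp only at hp2 hp3 hp4 hp5 hp6 hq2 hq3 hq4 hq5 hq6
          have hfl : pa h (l, false) = flip (pa h (l, true)) := by
            rw [← pa_flip]
            rfl
          have hfl' : flip (pa h (l, false)) = pa h (l, true) := by
            rw [hfl, flip_flip]
          have hnb : S.neighborSet (pa h (l, true)) = {pa h (l, false), x'} := by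
            rw [g.nb hp2 hO, ← hfl]
          have hnb' : S.neighborSet (pa h (l, false)) = {pa h (l, true), x''} := by
            rw [g.nb hq2 hO', hfl']
          have h1 : pa h (l, false) ≠ x' := by
            intro e
            rw [hO, ← e, hfl] at hp6
            exact hp6 rfl
          have h2 : pa h (l, true) ≠ x'' := by
            intro e
            rw [hO', ← e, hfl'] at hq6
            exact hq6 rfl
          have huu : x' ≠ x'' := by
            intro e
            have e1 := I.outer_symm _ _ hO
            have e2 := I.outer_symm _ _ hO'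
            rw [e, e2] at e1
            have e3 := Option.some.inj e1
            rw [hfl] at e3
            exact flip_ne _ e3
          have hxw : x ≠ pa h (l, true) := fun e => hp3 (by rw [← e])
          have hxw' : x ≠ pa h (l, false) := fun e => hq3 (by rw [← e])
          have hn := hna _ hp2 hp3 hp5
          have hn' := hna _ hq2 hq3 hq5
          rcases parity_two S hdeg hdx hxw hxw' hn hn' hnb hnb' h1 h2 huu with
            ⟨v, hv1, hv2, hv3⟩ | ⟨v, hv1, hv2, hv3⟩
          · exact ⟨true, _, hp1', v, hv2,
              mv_deg_one g hxw hn (by rw [hnb, Set.pair_comm]) h1.symm hv1 hv3⟩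
          · exact ⟨false, _, hq1', v, hv2,
              mv_deg_one g hxw' hn' (by rw [hnb', Set.pair_comm]) h2.symm hv1 hv3⟩

end Pool.Agent.H38H
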