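import Pool.Agent.Lib.H38H.G.G1
import Pool.Agent.Lib.H38H.O2

/-!
Chunk SLG4 (M). The new end of an isolated move.

Proof. As for `g1_move`: `x' = flip w` or `outer w = some x'`; slots in `ball (4 ℓ) w.1` are untouched, so `S` looks like `F` there (`unt`), and `x` is not there as `x.1 ∈ Ct`. `x'.1` is in this ball.
Second statement: `x' ≠ x` (slots: `x'.1 ∉ Ct`), so `mv_nb_x'` (its neighbours are neighbours in `S`), `unt` at `x'`.
First statement: if `outer w = some x'`: `x' = ray (flip w) 1`; `ray_comp` in `mv` for the ray of `x'` with `k = 4 ℓ - 1`, using `ray_succ'` and `iso_ray` for `flip w`: the slots `y_1 = x', y_2, ...` are distinct, untouched and different from `w.1`, so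
`y_j` is adjacent to `flip y_j` and `flip y_j` to `y_(j+1)` in `S`, and in `mv` (the deleted edge contains `w`; the added edge is not needed).
If `x' = flip w`: let `outer x' = some u`, `u = ray w 1`; `x'` is adjacent to `u` in `mv` (`u.1 ≠ w.1` by `iso_ray`); `ray_comp` for the ray of `u` with `k = 4 ℓ - 1`.
-/

set_option autoImplicit false

namespace Pool.Agent.H38H

open Classical

variable {ι : Type} [Fintype ι] {L : ℕ}

theorem slg4_ray {I : Inst ι L} {h : SB ι} {K : Finset ι} {S : SimpleGraph (ι × Bool)}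
    {En : Finset (ι × Bool)} {Ct : Finset ι} {ℓ : ℕ} (g : G1 I h K S En Ct ℓ) (hℓ : 1 ≤ ℓ)
    {v u : ι × Bool} (hc : Iso I ℓ Ct v.1) (hu : I.outer (flip v) = some u) (M : SimpleGraph (ι × Bool))
    (hM : ∀ a b, a.1 ≠ v.1 → b.1 ≠ v.1 → S.Adj a b → M.Adj a b) :
    4 * ℓ ≤ Nat.card {y // M.Reachable u y} := by
  have hr : ∀ j, I.ray u j = I.ray v (j + 1) := by
    intro j
    rw [ray_succ', hu, Option.bind_some]
  have key : ∀ j, j + 1 ≤ 4 * ℓ → ∃ y, I.ray u j = some y ∧ y.1 ∉ Ct ∧ y.1 ≠ v.1 ∧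
      ∀ i < j, ∀ z, I.ray u i = some z → z.1 ≠ y.1 := by
    intro j hj
    obtain ⟨y, h1, h2, h3, h4⟩ := iso_ray I hc hj
    refine ⟨y, by rw [hr]; exact h1, h2, fun e => h4 0 (by omega) v rfl e.symm, ?_⟩
    intro i hi z hz
    exact h4 (i + 1) (by omega) z (by rw [← hr]; exact hz)
  have h5 := ray_comp I M (x := u) (k := 4 * ℓ - 1) ?_ ?_
  · omega
  · intro j hj
    obtain ⟨y, h1, -, -, h4⟩ := key j (by omega)
    exact ⟨y, h1, h4⟩
  · intro j hj y z hy hz
    obtain ⟨y', h1, h2, h3, -⟩ := key j (by omega)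
    have e1 : y = y' := by
      rw [hy] at h1
      exact Option.some.inj h1
    subst e1
    obtain ⟨z', h1', h2', h3', -⟩ := key (j + 1) (by omega)
    have e2 : z = z' := by
      rw [hz] at h1'
      exact Option.some.inj h1'
    subst e2
    have hout : I.outer (flip y) = some z := by
      rw [Inst.ray, hy, Option.bind_some] at hz
      exact hz
    constructor
    · exact hM _ _ h3 h3 ((g.unt y (flip y) h2).2 (Or.inl rfl))
    · exact hM _ _ h3 h3' ((g.unt (flip y) z h2).2 (Or.inr hout))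

theorem g1_end {I : Inst ι L} {h : SB ι} {K : Finset ι} {S : SimpleGraph (ι × Bool)}
    {En : Finset (ι × Bool)} {Ct : Finset ι} {ℓ : ℕ} (g : G1 I h K S En Ct ℓ) (hℓ : 1 ≤ ℓ) {x w x' : ι × Bool} {b : Bool}
    (hxC : x.1 ∈ Ct) (hs : I.step h x b = some (w, x')) (hc : Iso I ℓ Ct w.1) :
    ℓ ≤ Nat.card {y // (mv S x w x').Reachable x' y} ∧ ∀ z, (mv S x w x').Adj x' z → I.FAdj x' z := by
  obtain ⟨-, h0⟩ := step_adj I h hs
  have h0' : x' = flip w ∨ I.outer w = some x' := by
    rcases h0 with ⟨h0, -⟩ | h0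
    · exact Or.inl h0
    · exact Or.inr h0
  have hw := hc.2 w.1 (ball_self I _ _)
  have hx' : x'.1 ∉ Ct := by
    rcases h0' with h1 | h1
    · rw [h1]
      exact hw.1
    · exact (hc.2 x'.1 (ball_mono I (by omega) _ (ball_outer I h1))).1
  have hxw : x.1 ≠ w.1 := fun e => hw.1 (e ▸ hxC)
  have hxx' : x ≠ x' := fun e => hx' (e ▸ hxC)
  have hwx' : w ≠ x' := by
    rcases h0' with h1 | h1
    · rw [h1]
      exact (flip_ne w).symm
    · intro e
      rw [← e] at h1
      exact I.outer_ne _ h1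
  have hM : ∀ a b, a.1 ≠ w.1 → b.1 ≠ w.1 → S.Adj a b → (mv S x w x').Adj a b := by
    intro a b ha hb hab
    rw [mv_adj]
    refine Or.inl ⟨hab, fun e => ?_⟩
    have h2 : w ∈ s(a, b) := by
      rw [e]
      exact Sym2.mem_mk_left _ _
    rw [Sym2.mem_iff] at h2
    rcases h2 with h2 | h2
    · exact ha (by rw [h2])
    · exact hb (by rw [h2])
  constructor
  · rcases h0' with h1 | h1
    · obtain ⟨u, hu⟩ := Option.ne_none_iff_exists'.1 (hw.2 (!w.2))
      have hu' : I.outer (flip w) = some u := hu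
      obtain ⟨u', r1, r2, -, r4⟩ := iso_ray I hc (j := 1) (by omega)
      have r1' : I.ray w 1 = some u := by
        rw [ray_succ', hu', Option.bind_some]
        rfl
      have e1 : u' = u := by
        rw [r1'] at r1
        exact (Option.some.inj r1).symm
      subst e1
      have huw : w.1 ≠ u'.1 := r4 0 (by omega) w rfl
      have h2 := slg4_ray g hℓ hc hu' _ hM
      have h3 : (mv S x w x').Adj x' u' := by
        rw [mv_adj]
        refine Or.inl ⟨(g.unt x' u' hx').2 (Or.inr (by rw [h1]; exact hu')), fun e => ?_⟩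
        rw [Sym2.eq_iff] at e
        rcases e with ⟨e, -⟩ | ⟨-, e⟩
        · exact hwx' e.symm
        · exact huw (by rw [e])
      have h4 := card_reach_mono (S := mv S x w x') (R := mv S x w x') le_rfl h3.reachable
      omega
    · have h2 := slg4_ray g hℓ (v := flip w) (u := x') hc (by rw [flip_flip]; exact h1) _ hM
      omega
  · intro z hz
    have h2 : z ∈ (mv S x w x').neighborSet x' := hz
    rw [mv_nb_x' hxx' hwx'] at h2
    exact (g.unt x' z hx').1 h2.1

end Pool.Agent.H38H
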