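import Pool.Agent.Lib.H38H.G.G2
import Pool.Agent.Lib.H38H.G.G4

/-!
Chunk SLG5 (M). A sequence of isolated moves from the end `x0`.

`far_cond` collects the conditions of a move with a far target: let `C` be the current touched set, every slot of it is in `ball 1 q` for a `q ∈ Q`; the target `w.1` is not in `ball (5 ℓ + 2) q` for `q ∈ Q`, and not short, slots without outer partner
are in `Q`. Proofs: `ball_triangle`, `ball_symm`, `ball_mono`, `ball_outer`, `ball_self`. For `hlo`: if `outer w = some (flip w)` then the component of `w` in `F` is `{w, flip w}` (`o2_comp_le`), so the slot is short (`short_iff`).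
`g1_walk`: induction on `m` (the head is the latest move), with `g1_move`, `g1_end`, `far_cond` with `Q = Tg ∪ {targets of the tail}`. The touched set after the move `a` is `insert e.1 (insert a.1.1 (insert a.2.1 C))`, where the slot `e.1` of the old end is
in `C`. Ends: `insert a.2 ((insert e (En.erase x0)).erase e) = insert a.2 (En.erase x0)`, as `e ∉ En.erase x0`. `slotsOf`: `target_mem_slotsOf`, `end_mem_slotsOf`, `mem_slotsOf_tail`.
-/

set_option autoImplicit false

namespace Pool.Agent.H38H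

open Classical

variable {ι : Type} [Fintype ι] {L : ℕ}

theorem far_cond {I : Inst ι L} {h : SB ι} {C Q : Finset ι} {ℓ : ℕ} {x w x' : ι × Bool} {b : Bool} (hℓ : 1 ≤ ℓ)
    (hs : I.step h x b = some (w, x')) (hxC : x.1 ∈ C)
    (hCQ : ∀ p ∈ C, ∃ q ∈ Q, p ∈ I.ball 1 q) (hE : ∀ z, I.outer z = none → z.1 ∈ Q)
    (hsh : w.1 ∉ I.short ℓ) (hfar : ∀ q ∈ Q, w.1 ∉ I.ball (5 * ℓ + 2) q) :
    w.1 ∉ C ∧ x'.1 ∉ C ∧ w.1 ≠ x.1 ∧ (∀ i, I.outer (w.1, i) ≠ none) ∧ I.outer w ≠ some x ∧
      I.outer w ≠ some (flip w) ∧ Iso I ℓ C w.1 ∧ x'.1 ∈ I.ball 1 w.1 := by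
  have hkey : ∀ k p, k + 1 ≤ 5 * ℓ + 2 → p ∈ I.ball k w.1 → p ∉ C ∧ p ∉ Q := by
    intro k p hk hp
    have h1 := ball_symm I hp
    constructor
    · intro hpC
      obtain ⟨q, hq, hpq⟩ := hCQ p hpC
      exact hfar q hq (ball_mono I (by omega) q (ball_triangle I hpq h1))
    · intro hpQ
      exact hfar p hpQ (ball_mono I (by omega) p h1)
  have hb : x'.1 ∈ I.ball 1 w.1 := by
    rcases (step_adj I h hs).2 with ⟨h1, -⟩ | h1
    · have h2 : x' = flip w := h1
      rw [h2]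
      exact ball_self I 1 w.1
    · exact ball_outer I h1
  have hw : w.1 ∉ C := (hkey 0 w.1 (by omega) (ball_self I 0 w.1)).1
  refine ⟨hw, (hkey 1 x'.1 (by omega) hb).1, ?_, ?_, ?_, ?_, ?_, hb⟩
  · intro e
    exact hw (e ▸ hxC)
  · intro i hi
    exact (hkey 0 w.1 (by omega) (ball_self I 0 w.1)).2 (hE (w.1, i) hi)
  · intro e
    exact (hkey 1 x.1 (by omega) (ball_outer I e)).1 hxC
  · intro e
    apply hsh
    rw [short_iff I ℓ w.1 w.2]
    refine (o2_comp_le I (x := (w.1, w.2)) (S := {w, flip w}) (by simp) ?_).trans ?_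
    · intro v hv u hvu
      rw [Finset.mem_insert, Finset.mem_singleton] at hv ⊢
      have e' := I.outer_symm _ _ e
      rcases hv with rfl | rfl
      · rcases hvu with h1 | h1
        · exact Or.inr h1
        · rw [e] at h1
          exact Or.inr (Option.some.inj h1).symm
      · rcases hvu with h1 | h1
        · rw [flip_flip] at h1
          exact Or.inl h1
        · rw [e'] at h1
          exact Or.inl (Option.some.inj h1).symm
    · refine (Finset.card_le_two).trans ?_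
      omega
  · refine ⟨hsh, fun q hq => ⟨(hkey (4 * ℓ) q (by omega) hq).1, fun i hi => ?_⟩⟩
    exact (hkey (4 * ℓ) q (by omega) hq).2 (hE (q, i) hi)

theorem g1_walk {I : Inst ι L} {h : SB ι} {K : Finset ι} {S : SimpleGraph (ι × Bool)}
    {En : Finset (ι × Bool)} {Ct Tg : Finset ι} {ℓ : ℕ} {x0 : ι × Bool} (hℓ : 1 ≤ ℓ) (g : G1 I h K S En Ct ℓ)
    (hx : x0 ∈ En) (hxC : x0.1 ∈ Ct) (hxK : x0.1 ∈ K) (hTg : ∀ p ∈ Ct, ∃ q ∈ Tg, p ∈ I.ball 1 q)
    (hEnd : ∀ z, I.outer z = none → z.1 ∈ Tg) {m : List (Mv ι)} (hT : Tr I h x0 m)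
    (hK : ∀ p ∈ slotsOf m, p ∈ K) (hfar : I.FarT Tg ℓ m) :
    ∃ Ct' : Finset ι, G1 I h K (mvs S x0 m) (insert (endOf x0 m) (En.erase x0)) Ct' ℓ ∧
      endOf x0 m ∉ En.erase x0 ∧ (endOf x0 m).1 ∈ Ct' ∧ Ct ⊆ Ct' ∧
      (∀ p ∈ Ct', p ∈ Ct ∨ (p ∈ slotsOf m ∧ ∃ a ∈ m, p ∈ I.ball 1 a.1.1)) ∧
      (∀ c, Cov S c → Cov (mvs S x0 m) (c + 2 * m.length)) ∧
      (m ≠ [] → ℓ ≤ Nat.card {y // (mvs S x0 m).Reachable (endOf x0 m) y} ∧
        ∀ z, (mvs S x0 m).Adj (endOf x0 m) z → I.FAdj (endOf x0 m) z) := by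
  induction m with
  | nil =>
    refine ⟨Ct, ?_, ?_, hxC, Finset.Subset.refl _, fun p hp => Or.inl hp, ?_, fun h => absurd rfl h⟩
    · show G1 I h K S (insert x0 (En.erase x0)) Ct ℓ
      rw [Finset.insert_erase hx]
      exact g
    · exact Finset.notMem_erase x0 En
    · intro c hc
      exact hc
  | cons a l ih =>
    obtain ⟨hT1, b, hb⟩ := hT
    have hfar1 := hfar.1
    have hfar2 := List.pairwise_cons.1 hfar.2
    obtain ⟨C, g', he, heC, hCC, hC, hcov, -⟩ := ih hT1 (fun p hp => hK p (mem_slotsOf_tail hp))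
      ⟨fun a' ha' => hfar1 a' (List.mem_cons_of_mem _ ha'), hfar2.2⟩
    have hQ : ∀ q, q ∈ Tg ∪ (l.map (fun a' => a'.1.1)).toFinset ↔ q ∈ Tg ∨ ∃ a' ∈ l, a'.1.1 = q := by
      intro q
      rw [Finset.mem_union, List.mem_toFinset, List.mem_map]
    have hs : I.step h (endOf x0 l) b = some (a.1, a.2) := hb
    obtain ⟨f1, f2, f3, f4, f5, f6, f7, f8⟩ := far_cond (Q := Tg ∪ (l.map (fun a' => a'.1.1)).toFinset) hℓ hs heC
      (by
        intro p hp
        rcases hC p hp with h1 | ⟨-, a', ha', h1⟩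
        · obtain ⟨q, hq, hpq⟩ := hTg p h1
          exact ⟨q, (hQ q).2 (Or.inl hq), hpq⟩
        · exact ⟨a'.1.1, (hQ _).2 (Or.inr ⟨a', ha', rfl⟩), h1⟩)
      (fun z hz => (hQ _).2 (Or.inl (hEnd z hz)))
      (hfar1 a List.mem_cons_self).1
      (by
        intro q hq
        rcases (hQ q).1 hq with h1 | ⟨a', ha', rfl⟩
        · exact (hfar1 a List.mem_cons_self).2 q h1
        · exact hfar2.1 a' ha')
    have heK : (endOf x0 l).1 ∈ K := by
      cases l with
      | nil => exact hxK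
      | cons a' l' => exact hK _ (mem_slotsOf_tail (end_mem_slotsOf (x0 := x0) (List.cons_ne_nil a' l')))
    have haK : a.1.1 ∈ K := hK _ (target_mem_slotsOf a l)
    obtain ⟨g2, g3, g4⟩ := g1_move g' (Finset.mem_insert_self _ _) hs heK haK f1 f2 f3 f4 f5 f6 (Or.inl f7)
    rw [Finset.erase_insert he] at g2
    obtain ⟨g5, g6⟩ := g1_end g' hℓ heC hs f7
    refine ⟨_, g2, ?_, ?_, ?_, ?_, ?_, fun _ => ⟨g5, g6⟩⟩
    · exact fun h1 => g3 (Finset.mem_insert_of_mem h1)
    · show a.2.1 ∈ _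
      simp
    · intro p hp
      simp [hCC hp]
    · intro p hp
      rw [Finset.mem_insert, Finset.mem_insert, Finset.mem_insert] at hp
      have hold : p ∈ C → p ∈ Ct ∨ (p ∈ slotsOf (a :: l) ∧ ∃ a' ∈ a :: l, p ∈ I.ball 1 a'.1.1) := by
        intro h1
        rcases hC p h1 with h2 | ⟨h2, a', ha', h3⟩
        · exact Or.inl h2
        · exact Or.inr ⟨mem_slotsOf_tail h2, a', List.mem_cons_of_mem _ ha', h3⟩
      rcases hp with rfl | rfl | rfl | h1
      · exact hold heC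
      · exact Or.inr ⟨target_mem_slotsOf a l, a, List.mem_cons_self, ball_self I 1 _⟩
      · exact Or.inr ⟨end_mem_slotsOf (x0 := x0) (List.cons_ne_nil a l), a, List.mem_cons_self, f8⟩
      · exact hold h1
    · intro c hc
      have h1 := g4 _ (hcov c hc)
      have e : c + 2 * (a :: l).length = c + 2 * l.length + 2 := by
        rw [List.length_cons]
        ring
      rw [e]
      exact h1

end Pool.Agent.H38H
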