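import Pool.Agent.Lib.H38H.G.G1
import Pool.Agent.Lib.H38H.PT0

/-!
Chunk SLG6 (M). `g1_join`: joining two ends whose halves are partners; `g1_cut`: cutting an outer edge; `g1_final`: the end of Phase 1.

Proofs. `g1_join`: the degrees of `a`, `b` become 2 (they are not adjacent); edge: `Clo` and its symmetric form (`Mc_symm`, `Md_symm`) give `PAdj` in both directions; unt: `join_same`. big: if the component of `v` in the new graph contains `a` or `b` then it
contains both and has at least `ℓ` positions (`card_reach_mono`); otherwise it is the component in `S` (`reach_same`, `join_same`) and contains no element of `En`.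
`g1_cut`: `S.neighborSet y = {flip y, z}`, `S.neighborSet z = {flip z, y}` (`G1.nb`), `G1.notEnd`. mid: `s(v, flip v) ≠ s(y, z)` as the slots of `y`, `z` differ. big: the component of `v` contains neither `y` nor `z`, so it is the component in `S`; if it is untouched it is closed under `flip`, so it contains
no position of the slots of `y`, `z`. `Cov`: `cov_cut`.
`g1_final`: everything except `big` is immediate (`Ct ⊆ K`). big: `g.big`; in the second case the component of `x` in `S` is untouched, so it is the component in `F` (`unt`; show `S.Reachable x y ↔ I.SameF x y` by two inductions), and it has no position without outer partner (its degree would be 1). Then `hun`.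
-/

set_option autoImplicit false

namespace Pool.Agent.H38H

open Classical

variable {ι : Type} [Fintype ι] {L : ℕ}

theorem slg6_flip_flip (x : ι × Bool) : flip (flip x) = x := by
  unfold flip
  simp

theorem slg6_slot {x y : ι × Bool} (h : x.1 = y.1) : x = y ∨ x = flip y := by
  obtain ⟨p, i⟩ := x
  obtain ⟨q, j⟩ := y
  have h' : p = q := h
  subst h'
  cases i <;> cases j <;> simp [flip]

theorem slg6_clo {I : Inst ι L} {h : SB ι} {a b : ι × Bool} (hc : Clo I (ap h a) (ap h b)) :
    I.PAdj h a b ∧ I.PAdj h b a := by
  rcases hc with hc | hc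
  · exact ⟨Or.inr (Or.inr (Or.inl hc)), Or.inr (Or.inr (Or.inl (I.Mc_symm _ _ hc)))⟩
  · exact ⟨Or.inr (Or.inr (Or.inr hc)), Or.inr (Or.inr (Or.inr (I.Md_symm _ _ hc)))⟩

theorem g1_join {I : Inst ι L} {h : SB ι} {K : Finset ι} {S : SimpleGraph (ι × Bool)}
    {En : Finset (ι × Bool)} {Ct : Finset ι} {ℓ : ℕ} (g : G1 I h K S En Ct ℓ) {a b : ι × Bool}
    (ha : a ∈ En) (hb : b ∈ En) (hab : a ≠ b) (hn : ¬ S.Adj a b) (haK : a.1 ∈ K) (hbK : b.1 ∈ K)
    (haC : a.1 ∈ Ct) (hbC : b.1 ∈ Ct) (hc : Clo I (ap h a) (ap h b))
    (hbig : ℓ ≤ Nat.card {y // S.Reachable a y}) : G1 I h K (joinE S a b) ((En.erase a).erase b) Ct ℓ := by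
  have hle : S ≤ joinE S a b := fun u v huv => Or.inl huv
  have hadj : (joinE S a b).Adj a b := Or.inr ⟨hab, rfl⟩
  have hna : (joinE S a b).neighborSet a = insert b (S.neighborSet a) := by
    ext v
    rw [SimpleGraph.mem_neighborSet, Set.mem_insert_iff, SimpleGraph.mem_neighborSet]
    constructor
    · rintro (h1 | ⟨h1, h2⟩)
      · exact Or.inr h1
      · rw [Sym2.eq_iff] at h2
        rcases h2 with ⟨-, h2⟩ | ⟨h2, h3⟩
        · exact Or.inl h2
        · exact absurd h2 hab
    · rintro (h1 | h1)
      · rw [h1]; exact hadj
      · exact Or.inl h1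
  have hnb : (joinE S a b).neighborSet b = insert a (S.neighborSet b) := by
    ext v
    rw [SimpleGraph.mem_neighborSet, Set.mem_insert_iff, SimpleGraph.mem_neighborSet]
    constructor
    · rintro (h1 | ⟨h1, h2⟩)
      · exact Or.inr h1
      · rw [Sym2.eq_iff] at h2
        rcases h2 with ⟨h2, -⟩ | ⟨-, h2⟩
        · exact absurd h2.symm hab
        · exact Or.inl h2
    · rintro (h1 | h1)
      · rw [h1]; exact hadj.symm
      · exact Or.inl h1
  refine ⟨?_, ?_, ?_, ?_, ?_⟩
  · intro x
    by_cases hxa : x = a
    · subst hxa
      rw [hna, Set.ncard_insert_of_notMem (by rw [SimpleGraph.mem_neighborSet]; exact hn) (Set.toFinite _), g.deg,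
        if_pos ha, if_neg]
      simp
    by_cases hxb : x = b
    · subst hxb
      rw [hnb, Set.ncard_insert_of_notMem (by rw [SimpleGraph.mem_neighborSet]; exact fun h1 => hn h1.symm)
        (Set.toFinite _), g.deg, if_pos hb, if_neg]
      simp
    have h1 : (joinE S a b).neighborSet x = S.neighborSet x := by
      ext v
      exact join_same hxa hxb v
    rw [h1, g.deg]
    have h2 : x ∈ (En.erase a).erase b ↔ x ∈ En := by
      simp [hxa, hxb]
    simp only [h2]
  · rintro x y (h1 | ⟨h1, h2⟩)
    · exact g.edge x y h1
    · rw [Sym2.eq_iff] at h2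
      right
      rcases h2 with ⟨h2, h3⟩ | ⟨h2, h3⟩
      · subst h2; subst h3
        exact ⟨haK, hbK, (slg6_clo hc).1⟩
      · subst h2; subst h3
        exact ⟨hbK, haK, (slg6_clo hc).2⟩
  · intro x hx
    exact Or.inl (g.mid x hx)
  · intro x y hx
    have hxa : x ≠ a := by rintro rfl; exact hx haC
    have hxb : x ≠ b := by rintro rfl; exact hx hbC
    rw [join_same hxa hxb]
    exact g.unt x y hx
  · intro v hv
    by_cases hva : (joinE S a b).Reachable v a
    · left
      exact hbig.trans (card_reach_mono hle hva)
    have hvb : ¬ (joinE S a b).Reachable v b := fun h1 => hva (h1.trans hadj.symm.reachable)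
    have hrs := reach_same (S := S) (R := joinE S a b) (v := v) (by
      intro y hy z
      exact join_same (by rintro rfl; exact hva hy) (by rintro rfl; exact hvb hy) z)
    have h3 : ∀ y, S.Reachable v y → y ∉ En := by
      intro y hy hyE
      have hy' := (hrs y).2 hy
      apply hv y hy'
      rw [Finset.mem_erase, Finset.mem_erase]
      exact ⟨by rintro rfl; exact hvb hy', by rintro rfl; exact hva hy', hyE⟩
    rcases g.big v h3 with h4 | h4
    · left
      rw [card_reach_congr hrs]
      exact h4
    · right
      intro y hy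
      exact h4 y ((hrs y).1 hy)

theorem g1_cut {I : Inst ι L} {h : SB ι} {K : Finset ι} {S : SimpleGraph (ι × Bool)}
    {En : Finset (ι × Bool)} {Ct : Finset ι} {ℓ : ℕ} (g : G1 I h K S En Ct ℓ) {y z : ι × Bool}
    (ho : I.outer y = some z) (hyz : y.1 ≠ z.1) (hy : y.1 ∉ Ct) (hz : z.1 ∉ Ct) :
    G1 I h K (cutE S y z) (insert y (insert z En)) (insert y.1 (insert z.1 Ct)) ℓ ∧ y ∉ En ∧ z ∉ En ∧
      ∀ c, Cov S c → Cov (cutE S y z) (c + 2) := by
  have ho' : I.outer z = some y := I.outer_symm _ _ ho
  have hny := g.nb hy ho
  have hnz := g.nb hz ho'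
  have hyE : y ∉ En := g.notEnd hy ho (by rintro rfl; exact hyz rfl)
  have hzE : z ∉ En := g.notEnd hz ho' (by rintro rfl; exact hyz rfl)
  have hne : y ≠ z := by rintro rfl; exact hyz rfl
  have hfy : flip y ≠ z := by rintro rfl; exact hyz rfl
  have hfz : flip z ≠ y := by rintro rfl; exact hyz rfl
  refine ⟨⟨?_, ?_, ?_, ?_, ?_⟩, hyE, hzE, fun c hc => cov_cut hc⟩
  · intro x
    by_cases hxy : x = y
    · subst hxy
      have h1 : (cutE S x z).neighborSet x = {flip x} := by
        ext v
        rw [SimpleGraph.mem_neighborSet, Set.mem_singleton_iff]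
        constructor
        · rintro ⟨h1, h2⟩
          have h3 : v ∈ S.neighborSet x := h1
          rw [hny] at h3
          rcases h3 with h3 | h3
          · exact h3
          · exact absurd (by rw [Set.mem_singleton_iff.1 h3]) h2
        · intro h1
          refine ⟨?_, ?_⟩
          · have : v ∈ S.neighborSet x := by rw [hny, h1]; exact Or.inl rfl
            exact this
          · rw [h1]
            intro h2
            rw [Sym2.eq_iff] at h2
            rcases h2 with ⟨-, h2⟩ | ⟨h2, -⟩
            · exact hfy h2
            · exact hne h2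
      rw [h1, Set.ncard_singleton, if_pos (Finset.mem_insert_self _ _)]
    by_cases hxz : x = z
    · subst hxz
      have h1 : (cutE S y x).neighborSet x = {flip x} := by
        ext v
        rw [SimpleGraph.mem_neighborSet, Set.mem_singleton_iff]
        constructor
        · rintro ⟨h1, h2⟩
          have h3 : v ∈ S.neighborSet x := h1
          rw [hnz] at h3
          rcases h3 with h3 | h3
          · exact h3
          · exact absurd (by rw [Set.mem_singleton_iff.1 h3]; exact Sym2.eq_swap) h2
        · intro h1
          refine ⟨?_, ?_⟩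
          · have : v ∈ S.neighborSet x := by rw [hnz, h1]; exact Or.inl rfl
            exact this
          · rw [h1]
            intro h2
            rw [Sym2.eq_iff] at h2
            rcases h2 with ⟨h2, -⟩ | ⟨-, h2⟩
            · exact hne h2.symm
            · exact hfz h2
      rw [h1, Set.ncard_singleton, if_pos]
      simp
    have h1 : (cutE S y z).neighborSet x = S.neighborSet x := by
      ext v
      exact cut_same hxy hxz v
    rw [h1, g.deg]
    have h2 : x ∈ insert y (insert z En) ↔ x ∈ En := by
      simp [hxy, hxz]
    simp only [h2]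
  · rintro u v ⟨h1, -⟩
    exact g.edge u v h1
  · intro x hx
    refine ⟨g.mid x hx, ?_⟩
    intro h2
    rw [Sym2.eq_iff] at h2
    rcases h2 with ⟨h2, h3⟩ | ⟨h2, h3⟩
    · apply hyz
      rw [← h2, ← h3]
      rfl
    · apply hyz
      rw [← h2, ← h3]
      rfl
  · intro u v hu
    have h1 : u.1 ≠ y.1 := fun h1 => hu (by rw [h1]; simp)
    have h2 : u.1 ≠ z.1 := fun h1 => hu (by rw [h1]; simp)
    have h3 : u.1 ∉ Ct := fun h1 => hu (by simp [h1])
    rw [cut_same (by rintro rfl; exact h1 rfl) (by rintro rfl; exact h2 rfl)]
    exact g.unt u v h3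
  · intro v hv
    have hvy : ¬ (cutE S y z).Reachable v y := fun h1 => hv y h1 (by simp)
    have hvz : ¬ (cutE S y z).Reachable v z := fun h1 => hv z h1 (by simp)
    have hrs := reach_same (S := S) (R := cutE S y z) (v := v) (by
      intro u hu w
      exact cut_same (by rintro rfl; exact hvy hu) (by rintro rfl; exact hvz hu) w)
    have h3 : ∀ u, S.Reachable v u → u ∉ En := by
      intro u hu huE
      exact hv u ((hrs u).2 hu) (by simp [huE])
    rcases g.big v h3 with h4 | h4
    · left
      rw [card_reach_congr hrs]
      exact h4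
    · right
      intro u hu hmem
      have hu' := (hrs u).1 hu
      have hfl : (cutE S y z).Reachable v (flip u) := by
        rw [hrs]
        have : S.Adj u (flip u) := (g.unt u (flip u) (h4 u hu')).2 (Or.inl rfl)
        exact hu'.trans this.reachable
      rw [Finset.mem_insert, Finset.mem_insert] at hmem
      rcases hmem with h5 | h5 | h5
      · rcases slg6_slot h5 with h6 | h6
        · rw [h6] at hu; exact hvy hu
        · rw [h6, slg6_flip_flip] at hfl; exact hvy hfl
      · rcases slg6_slot h5 with h6 | h6
        · rw [h6] at hu; exact hvz hu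
        · rw [h6, slg6_flip_flip] at hfl; exact hvz hfl
      · exact h4 u hu' h5

/-- the end of Phase 1 -/
theorem g1_final {I : Inst ι L} {h : SB ι} {K : Finset ι} {S : SimpleGraph (ι × Bool)}
    {Ct : Finset ι} {ℓ : ℕ} (g : G1 I h K S ∅ Ct ℓ) (hCt : Ct ⊆ K)
    (hun : ∀ x, (∀ y, I.SameF x y → y.1 ∉ Ct) → (∀ y, I.SameF x y → I.outer y ≠ none) →
      ℓ ≤ Nat.card {y // I.SameF x y}) : P2State I h K ℓ S := by
  refine ⟨?_, ?_, ?_, ?_, ?_⟩
  · intro x
    rw [g.deg, if_neg (by simp)]
  · intro x y hxy
    rcases g.edge x y hxy with h1 | h1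
    · rcases h1 with h1 | h1
      · exact Or.inl h1
      · exact Or.inr (Or.inl h1)
    · exact h1.2.2
  · intro x hx
    exact g.mid x (Or.inr hx)
  · intro x y hx
    exact g.unt x y (fun h1 => hx (hCt h1))
  · intro x
    rcases g.big x (by simp) with h1 | h1
    · exact h1
    · have hsame : ∀ y, S.Reachable x y ↔ I.SameF x y := by
        intro y
        constructor
        · intro hy
          rw [SimpleGraph.reachable_iff_reflTransGen] at hy
          have : S.Reachable x y ∧ I.SameF x y := by
            induction hy with
            | refl => exact ⟨SimpleGraph.Reachable.refl _, Relation.ReflTransGen.refl⟩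
            | tail _ hbc ih =>
              refine ⟨ih.1.trans hbc.reachable, ?_⟩
              exact Relation.ReflTransGen.tail ih.2 ((g.unt _ _ (h1 _ ih.1)).1 hbc)
          exact this.2
        · intro hy
          unfold Inst.SameF at hy
          induction hy with
          | refl => exact SimpleGraph.Reachable.refl _
          | tail _ hbc ih =>
            exact ih.trans ((g.unt _ _ (h1 _ ih)).2 hbc).reachable
      have h2 := hun x (fun y hy => h1 y ((hsame y).2 hy)) (by
        intro y hy hno
        have h3 : S.neighborSet y = {flip y} := by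
          ext v
          rw [SimpleGraph.mem_neighborSet, g.unt y v (h1 y ((hsame y).2 hy)), Set.mem_singleton_iff]
          unfold Inst.FAdj
          rw [hno]
          simp
        have h4 := g.deg y
        rw [h3, Set.ncard_singleton, if_neg (by simp)] at h4
        omega)
      have h5 : Nat.card {y // S.Reachable x y} = Nat.card {y // I.SameF x y} :=
        Nat.card_congr (Equiv.subtypeEquivRight hsame)
      rw [h5]
      exact h2

end Pool.Agent.H38H
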