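import Pool.Agent.Lib.H38H.G.G5
import Pool.Agent.Lib.H38H.G.G6

/-!
Chunk SLG7 (M). A successful attempt.

Proof. `att_facts` for `h'` gives `mx`, `my` of length `D + 1`, so `early D mx = mx` (`List.drop 0`), and `0 < V1 ..` gives `FarT Fb ℓ (mx ++ my)`. `K' = attR .. h' ⊇ K` (`att_stop ok h`), `g1_mono` to `h'`, `K'`.
`g1_walk` for `x0`, `mx` (all slots in `K'`): state `S1`, touched `C1`, ends `insert ex (En.erase x0)`, `ex ∉ En.erase x0`. `y0 ≠ x0` (slots, `ok.hxy`), so `y0` is an end of `S1`.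
`g1_walk` for `y0`, `my` with the targets `Tg ∪ (mx.map target)`: `FarT` for these: `List.pairwise_append` and `ball_symm`. State `S2`, touched `C2`, ends `insert ey (E1.erase y0)` with `E1 = insert ex (En.erase x0)`, `ey ∉ E1.erase y0`, `ex ≠ y0` (slots distinct).
`g1_join` for `a = ey`, `b = ex` (`my ≠ []`): not adjacent, as otherwise `FAdj ey ex`, so `ex.1 ∈ ball 1 ey.1` (`ball_outer`, or the same slot: impossible), and the last targets of `mx` and `my` are within distance `3 ≤ 5 ℓ + 2`. `Clo` is symmetric.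
Finally `((insert ey (E1.erase y0)).erase ey).erase ex = (En.erase x0).erase y0`. `N` is the set of the targets of `mx ++ my`.
-/

set_option autoImplicit false

namespace Pool.Agent.H38H

open Classical

variable {ι : Type} [Fintype ι] {L : ℕ}

/-- a successful attempt -/
theorem p1_succ {I : Inst ι L} {Av K Fb : Finset ι} {x0 y0 : ι × Bool} {D E : ℕ} {eps : ℝ} {ℓ : ℕ}
    (ok : AttOK I Av K x0 y0 D E eps) {h : SB ι} {S : SimpleGraph (ι × Bool)}
    {En : Finset (ι × Bool)} {Ct Tg : Finset ι} (hℓ : 1 ≤ ℓ)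
    (g : G1 I h K S En Ct ℓ) (hx : x0 ∈ En) (hy : y0 ∈ En) (hxC : x0.1 ∈ Ct) (hyC : y0.1 ∈ Ct)
    (hTg : ∀ p ∈ Ct, ∃ q ∈ Tg, p ∈ I.ball 1 q) (hEnd : ∀ z, I.outer z = none → z.1 ∈ Tg) (hF : Tg ⊆ Fb)
    {h' : SB ι} (hh : h' ∈ cyl K h) (hs : Succ I Av K x0 y0 D (V1 I Fb ℓ D) h') :
    ∃ (S' : SimpleGraph (ι × Bool)) (Ct' N : Finset ι),
      G1 I h' (attR I Av K x0 y0 D h') S' ((En.erase x0).erase y0) Ct' ℓ ∧ Ct ⊆ Ct' ∧
      N.card ≤ 2 * (D + 1) ∧ (∀ q ∈ N, q ∉ I.short ℓ ∧ ∀ p ∈ Fb, q ∉ I.ball (5 * ℓ + 2) p) ∧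
      (∀ p ∈ Ct', p ∈ Ct ∨ (p ∈ attR I Av K x0 y0 D h' ∧ ∃ q ∈ N, p ∈ I.ball 1 q)) ∧
      ∀ c, Cov S c → Cov S' (c + 4 * (D + 1)) := by
  obtain ⟨mx, my, tx, ty, cx, cy, lx, ly, hnd, hT, -, -, hpos, hclo⟩ := att_facts ok hs
  -- far targets
  have hfar : I.FarT Fb ℓ (mx ++ my) := by
    unfold V1 at hpos
    have e1 : early D mx = mx := by unfold early; rw [lx, Nat.sub_self, List.drop_zero]
    have e2 : early D my = my := by unfold early; rw [ly, Nat.sub_self, List.drop_zero]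
    rw [e1, e2] at hpos
    by_contra hcon
    rw [if_neg hcon] at hpos
    exact lt_irrefl _ hpos
  have hpw := List.pairwise_append.1 hfar.2
  have hmx : mx ≠ [] := by rintro rfl; simp at lx
  have hmy : my ≠ [] := by rintro rfl; simp at ly
  have hnd' := List.nodup_append.1 hnd
  -- the new known set
  set K' := attR I Av K x0 y0 D h' with hK'
  have hKK' : K ⊆ K' := (att_stop ok h).1 h' hh
  have g' := g1_mono g hKK' hh
  have hx0K : x0.1 ∈ K' := hT _ (List.mem_append_left _ List.mem_cons_self)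
  have hy0K : y0.1 ∈ K' := hT _ (List.mem_append_right _ List.mem_cons_self)
  have hxy : y0 ≠ x0 := fun e => ok.hxy (by rw [e])
  have hmxK : ∀ p ∈ slotsOf mx, p ∈ K' := fun p hp =>
    hT p (List.mem_append_left _ (List.mem_cons_of_mem _ hp))
  have hmyK : ∀ p ∈ slotsOf my, p ∈ K' := fun p hp =>
    hT p (List.mem_append_right _ (List.mem_cons_of_mem _ hp))
  have hfx : I.FarT Tg ℓ mx := ⟨fun a ha => ⟨(hfar.1 a (List.mem_append_left _ ha)).1,
    fun p hp => (hfar.1 a (List.mem_append_left _ ha)).2 p (hF hp)⟩, hpw.1⟩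
  obtain ⟨C1, g1, hexE, hexC, hCC1, hC1, hcov1, -⟩ :=
    g1_walk hℓ g' hx hxC hx0K hTg hEnd tx hmxK hfx
  -- slots of the ends
  have hexs : (endOf x0 mx).1 ∈ slotsOf mx := end_mem_slotsOf hmx
  have heys : (endOf y0 my).1 ∈ slotsOf my := end_mem_slotsOf hmy
  have hexy0 : endOf x0 mx ≠ y0 := fun e =>
    hnd'.2.2 _ (List.mem_cons_of_mem _ hexs) _ List.mem_cons_self (by rw [e])
  have hexy : (endOf x0 mx).1 ≠ (endOf y0 my).1 :=
    hnd'.2.2 _ (List.mem_cons_of_mem _ hexs) _ (List.mem_cons_of_mem _ heys)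
  set ex := endOf x0 mx with hexd
  set ey := endOf y0 my with heyd
  have hy1 : y0 ∈ insert ex (En.erase x0) :=
    Finset.mem_insert_of_mem (Finset.mem_erase.2 ⟨hxy, hy⟩)
  set Tg' := Tg ∪ (mx.map (fun a => a.1.1)).toFinset with hTg'
  have hTg2 : ∀ p ∈ C1, ∃ q ∈ Tg', p ∈ I.ball 1 q := by
    intro p hp
    rcases hC1 p hp with h1 | ⟨-, a, ha, h1⟩
    · obtain ⟨q, hq, h2⟩ := hTg p h1
      exact ⟨q, Finset.mem_union_left _ hq, h2⟩
    · exact ⟨a.1.1, Finset.mem_union_right _ (List.mem_toFinset.2 (List.mem_map.2 ⟨a, ha, rfl⟩)), h1⟩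
  have hfy : I.FarT Tg' ℓ my := by
    refine ⟨fun b hb => ⟨(hfar.1 b (List.mem_append_right _ hb)).1, fun p hp => ?_⟩, hpw.2.1⟩
    rcases Finset.mem_union.1 hp with h1 | h1
    · exact (hfar.1 b (List.mem_append_right _ hb)).2 p (hF h1)
    · obtain ⟨a, ha, rfl⟩ := List.mem_map.1 (List.mem_toFinset.1 h1)
      exact fun h2 => hpw.2.2 a ha b hb (ball_symm I h2)
  obtain ⟨C2, g2, heyE, heyC, hCC2, hC2, hcov2, hne2⟩ :=
    g1_walk hℓ g1 hy1 (hCC1 hyC) hy0K hTg2 (fun z hz => Finset.mem_union_left _ (hEnd z hz)) ty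
      hmyK hfy
  obtain ⟨hbig, hadj⟩ := hne2 hmy
  -- the ends are near the last targets
  have hnear : ∀ (z : ι × Bool) (m : List (Mv ι)), m ≠ [] → Cons I K z m →
      ∃ a ∈ m, (endOf z m).1 ∈ I.ball 1 a.1.1 := by
    intro z m hm hc
    cases m with
    | nil => exact absurd rfl hm
    | cons a l =>
      refine ⟨a, List.mem_cons_self, ?_⟩
      show a.2.1 ∈ I.ball 1 a.1.1
      rcases hc.shape a List.mem_cons_self with h1 | ⟨h1, -⟩
      · rw [h1, flip_fst]
        exact ball_self I 1 _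
      · exact ball_outer I h1
  obtain ⟨a, ha, hea⟩ := hnear x0 mx hmx cx
  obtain ⟨b, hb, heb⟩ := hnear y0 my hmy cy
  have hnadj : ¬ (mvs (mvs S x0 mx) y0 my).Adj ey ex := by
    intro h1
    rcases hadj ex h1 with h2 | h2
    · exact hexy (by rw [h2, flip_fst])
    · have h3 : ex.1 ∈ I.ball 1 ey.1 := ball_outer I h2
      have h4 : ex.1 ∈ I.ball (1 + 1) b.1.1 := ball_triangle I heb h3
      have h5 : a.1.1 ∈ I.ball (1 + 1 + 1) b.1.1 := ball_triangle I h4 (ball_symm I hea)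
      exact hpw.2.2 a ha b hb (ball_mono I (by omega) _ h5)
  have hclo' : Clo I (ap h' ey) (ap h' ex) := by
    rcases hclo with h | h
    · exact Or.inl (I.Mc_symm _ _ h)
    · exact Or.inr (I.Md_symm _ _ h)
  have hg3 := g1_join g2 (a := ey) (b := ex) (Finset.mem_insert_self _ _)
    (Finset.mem_insert_of_mem (Finset.mem_erase.2 ⟨hexy0, Finset.mem_insert_self _ _⟩))
    (fun e => hexy (by rw [e])) hnadj (hmyK _ heys) (hmxK _ hexs) heyC (hCC2 hexC) hclo' hbig
  have hends : ((insert ey ((insert ex (En.erase x0)).erase y0)).erase ey).erase ex =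
      (En.erase x0).erase y0 := by
    rw [Finset.erase_insert heyE, Finset.erase_right_comm, Finset.erase_insert hexE]
  rw [hends] at hg3
  refine ⟨_, C2, ((mx ++ my).map (fun a => a.1.1)).toFinset, hg3, hCC1.trans hCC2, ?_, ?_, ?_, ?_⟩
  · refine (List.toFinset_card_le _).trans ?_
    rw [List.length_map, List.length_append, lx, ly]
    omega
  · intro q hq
    obtain ⟨c, hc, rfl⟩ := List.mem_map.1 (List.mem_toFinset.1 hq)
    exact hfar.1 c hc
  · intro p hp
    rcases hC2 p hp with h1 | ⟨h1, c, hc, h2⟩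
    · rcases hC1 p h1 with h3 | ⟨h3, c, hc, h4⟩
      · exact Or.inl h3
      · exact Or.inr ⟨hmxK p h3, c.1.1, List.mem_toFinset.2 (List.mem_map.2
          ⟨c, List.mem_append_left _ hc, rfl⟩), h4⟩
    · exact Or.inr ⟨hmyK p h1, c.1.1, List.mem_toFinset.2 (List.mem_map.2
          ⟨c, List.mem_append_right _ hc, rfl⟩), h2⟩
  · intro c hc
    have h1 := cov_join (a := ey) (b := ex) (hcov2 _ (hcov1 c hc))
    rw [lx, ly] at h1
    have h2 : c + 2 * (D + 1) + 2 * (D + 1) = c + 4 * (D + 1) := by ring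
    rwa [h2] at h1

end Pool.Agent.H38H
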